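import Mathlib
import Pool.Agent.W910.WZ.Defs

/-! Few values at uncountably many points, for analytic functions on a connected set over a proper
field, under the open colouring axiom. -/

set_option autoImplicit false

open Set Cardinal Topology Filter TopologicalSpace

namespace Pool.Agent.Y97.WZ

open Pool.Agent.W910.WZ (OCA)

variable {𝕜 : Type} [NontriviallyNormedField 𝕜] [ProperSpace 𝕜]

/-- indices: two centres and a radius -/
abbrev E : Type := (Bool → ℕ) × ℕ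

noncomputable def rad (e : E) : ℝ := 1 / ((e.2 : ℝ) + 1)

noncomputable def cen (𝕜 : Type) [NontriviallyNormedField 𝕜] [ProperSpace 𝕜] (e : E) (i : Bool) :
    𝕜 := denseSeq 𝕜 (e.1 i)

noncomputable def K (𝕜 : Type) [NontriviallyNormedField 𝕜] [ProperSpace 𝕜] (e : E) (i : Bool) :
    Set 𝕜 := Metric.closedBall (cen 𝕜 e i) (rad e)

def Dj (𝕜 : Type) [NontriviallyNormedField 𝕜] [ProperSpace 𝕜] (e : E) : Prop :=
  Disjoint (K 𝕜 e false) (K 𝕜 e true)

theorem exists_e {u v : 𝕜} (h : u ≠ v) :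
    ∃ e : E, Dj 𝕜 e ∧ u ∈ Metric.ball (cen 𝕜 e false) (rad e) ∧
      v ∈ Metric.ball (cen 𝕜 e true) (rad e) := by
  have hd : 0 < dist u v := dist_pos.2 h
  obtain ⟨k, hk⟩ := exists_nat_one_div_lt (show 0 < dist u v / 4 by positivity)
  have hρ : (0 : ℝ) < 1 / ((k : ℝ) + 1) := by positivity
  obtain ⟨m0, h0⟩ := (Metric.denseRange_iff.1 (denseRange_denseSeq 𝕜)) u _ hρ
  obtain ⟨m1, h1⟩ := (Metric.denseRange_iff.1 (denseRange_denseSeq 𝕜)) v _ hρ
  refine ⟨(fun i => if i = true then m1 else m0, k), ?_, ?_, ?_⟩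
  · rw [Dj, Set.disjoint_left]
    intro w hw0 hw1
    have a0 : dist w (denseSeq 𝕜 m0) ≤ 1 / ((k : ℝ) + 1) := by
      simpa [K, cen, rad] using hw0
    have a1 : dist w (denseSeq 𝕜 m1) ≤ 1 / ((k : ℝ) + 1) := by
      simpa [K, cen, rad] using hw1
    have t1 := dist_triangle u (denseSeq 𝕜 m0) v
    have t2 := dist_triangle (denseSeq 𝕜 m0) w v
    have t3 := dist_triangle w (denseSeq 𝕜 m1) v
    rw [dist_comm] at a0
    rw [dist_comm] at h1
    linarith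
  · simpa [cen, rad] using h0
  · simpa [cen, rad] using h1

/-- the two open relations -/
def Bf (X : Set (𝕜 × 𝕜)) (e : E) (i : Bool) : Set (X × X) :=
  {p | ∀ s ∈ K 𝕜 e i, p.1.1.2 - p.2.1.2 ≠ s * (p.1.1.1 - p.2.1.1)}

theorem Bf_open (X : Set (𝕜 × 𝕜)) (e : E) (i : Bool) : IsOpen (Bf X e i) := by
  rw [isOpen_iff_mem_nhds]
  intro p hp
  have hK : IsCompact (K 𝕜 e i) := isCompact_closedBall _ _
  have := hK.eventually_forall_of_forall_eventually (x₀ := p)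
    (P := fun (p : X × X) (s : 𝕜) => p.1.1.2 - p.2.1.2 ≠ s * (p.1.1.1 - p.2.1.1)) (by
      intro s hs
      have ho : IsOpen {z : (X × X) × 𝕜 | z.1.1.1.2 - z.1.2.1.2 ≠ z.2 * (z.1.1.1.1 - z.1.2.1.1)} := by
        apply isOpen_ne_fun
        · fun_prop
        · fun_prop
      exact ho.mem_nhds (hp s hs))
  exact this

theorem Bf_symm (X : Set (𝕜 × 𝕜)) (e : E) (i : Bool) (x y : X) (h : (x, y) ∈ Bf X e i) :
    (y, x) ∈ Bf X e i := by
  intro s hs heq
  apply h s hs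
  have heq' : y.1.2 - x.1.2 = s * (y.1.1 - x.1.1) := heq
  change x.1.2 - y.1.2 = s * (x.1.1 - y.1.1)
  linear_combination -heq'

theorem Bf_cover (X : Set (𝕜 × 𝕜)) (e : E) (he : Dj 𝕜 e) (x y : X) (h : x ≠ y) :
    ∃ i, (x, y) ∈ Bf X e i := by
  by_contra hcon
  push Not at hcon
  have h0 := hcon false
  have h1 := hcon true
  simp only [Bf, Set.mem_ofPred_eq, not_forall, not_not] at h0 h1
  obtain ⟨s0, hs0, e0⟩ := h0
  obtain ⟨s1, hs1, e1⟩ := h1
  have hne : s0 ≠ s1 := fun hh => (Set.disjoint_left.1 he) hs0 (hh ▸ hs1)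
  have h2 : (s0 - s1) * (x.1.1 - y.1.1) = 0 := by linear_combination e1 - e0
  rcases mul_eq_zero.1 h2 with h3 | h3
  · exact hne (sub_eq_zero.1 h3)
  · apply h
    rw [h3, mul_zero] at e0
    exact Subtype.ext (Prod.ext (sub_eq_zero.1 h3) (sub_eq_zero.1 e0))

/-- isolated points of a set are countable -/
theorem iso_countable (Z : Set 𝕜) : {z ∈ Z | ∀ᶠ w in 𝓝[≠] z, w ∉ Z}.Countable := by
  have hb := isBasis_countableBasis 𝕜
  have hex : ∀ z ∈ {z ∈ Z | ∀ᶠ w in 𝓝[≠] z, w ∉ Z}, ∃ U ∈ countableBasis 𝕜, U ∩ Z = {z} := by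
    rintro z ⟨hz, hev⟩
    rw [eventually_nhdsWithin_iff] at hev
    obtain ⟨V, hV, hVo, hzV⟩ := mem_nhds_iff.1 hev
    obtain ⟨U, hU, hzU, hUV⟩ := hb.exists_subset_of_mem_open hzV hVo
    refine ⟨U, hU, ?_⟩
    ext w
    constructor
    · rintro ⟨hw, hwZ⟩
      by_contra hne
      exact hV (hUV hw) hne hwZ
    · rintro rfl
      exact ⟨hzU, hz⟩
  choose! U hU hUZ using hex
  refine Set.MapsTo.countable_of_injOn (f := U) (t := countableBasis 𝕜) (fun z hz => hU z hz) ?_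
    (countable_countableBasis 𝕜)
  intro z hz z' hz' he
  have h1 := hUZ z hz
  have h2 := hUZ z' hz'
  have h3 : ({z} : Set 𝕜) = {z'} := by
    rw [← h1, ← h2]
    rw [he]
  exact Set.singleton_eq_singleton_iff.1 h3

/-- The derivative is a function of the point and the value, up to countably many points. -/
theorem deriv_of_value (hoca : OCA) (X : Set (𝕜 × 𝕜)) (hX : #X ≤ ℵ₁) :
    ∃ D : 𝕜 × 𝕜 → 𝕜, ∀ g : 𝕜 → 𝕜,
      {z : 𝕜 | DifferentiableAt 𝕜 g z ∧ (z, g z) ∈ X ∧ deriv g z ≠ D (z, g z)}.Countable := by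
  have hex : ∀ e : E, Dj 𝕜 e → ∃ (n : X → ℕ) (i : ℕ → Bool), ∀ x y, x ≠ y → n x = n y →
      (x, y) ∈ Bf X e (i (n x)) := fun e he =>
    hoca X hX (Bf X e) (Bf_open X e) (Bf_symm X e) (Bf_cover X e he)
  choose! n i hni using hex
  set Pr : X → 𝕜 → Prop := fun x u => ∀ e, Dj 𝕜 e →
    u ∉ Metric.ball (cen 𝕜 e (i e (n e x))) (rad e) with hPr
  have huniq : ∀ x u v, Pr x u → Pr x v → u = v := by
    intro x u v hu hv
    by_contra hne
    obtain ⟨e, he, h0, h1⟩ := exists_e hne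
    rcases hb : i e (n e x) with _ | _
    · have := hu e he
      rw [hb] at this
      exact this h0
    · have := hv e he
      rw [hb] at this
      exact this h1
  classical
  refine ⟨fun p => if h : ∃ (hp : p ∈ X) (u : 𝕜), Pr ⟨p, hp⟩ u then h.choose_spec.choose else 0, ?_⟩
  intro g
  set Z : E → ℕ → Set 𝕜 := fun e m => {z | ∃ h : (z, g z) ∈ X, n e ⟨(z, g z), h⟩ = m} with hZ
  have hcount : (⋃ e : E, ⋃ m : ℕ, {z ∈ Z e m | ∀ᶠ w in 𝓝[≠] z, w ∉ Z e m}).Countable :=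
    Set.countable_iUnion fun e => Set.countable_iUnion fun m => iso_countable _
  refine hcount.mono ?_
  rintro z ⟨hg, hzX, hne⟩
  by_contra hbad
  apply hne
  have hfreq : ∀ e : E, ∃ᶠ w in 𝓝[≠] z, w ∈ Z e (n e ⟨(z, g z), hzX⟩) := by
    intro e
    by_contra hnf
    rw [Filter.not_frequently] at hnf
    apply hbad
    exact Set.mem_iUnion.2 ⟨e, Set.mem_iUnion.2 ⟨n e ⟨(z, g z), hzX⟩, ⟨⟨hzX, rfl⟩, hnf⟩⟩⟩
  have hgood : Pr ⟨(z, g z), hzX⟩ (deriv g z) := by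
    intro e he hball
    have hder : Tendsto (slope g z) (𝓝[≠] z) (𝓝 (deriv g z)) :=
      hasDerivAt_iff_tendsto_slope.1 hg.hasDerivAt
    have hev := hder.eventually (Metric.isOpen_ball.mem_nhds hball)
    have hev2 : ∀ᶠ w in 𝓝[≠] z, w ≠ z := eventually_mem_nhdsWithin
    obtain ⟨w, ⟨hwX, hwn⟩, hws, hwz⟩ := ((hfreq e).and_eventually (hev.and hev2)).exists
    have hne' : (⟨(w, g w), hwX⟩ : X) ≠ ⟨(z, g z), hzX⟩ := by
      intro h
      exact hwz (congrArg (fun p : X => p.1.1) h)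
    have hB := hni e he _ _ hne' hwn
    rw [hwn] at hB
    refine hB (slope g z w) (Metric.ball_subset_closedBall hws) ?_
    change g w - g z = slope g z w * (w - z)
    rw [slope_def_field, div_mul_cancel₀ _ (sub_ne_zero.2 hwz)]
  have hh : ∃ (hp : (z, g z) ∈ X) (u : 𝕜), Pr ⟨(z, g z), hp⟩ u := ⟨hzX, deriv g z, hgood⟩
  change deriv g z = if h : ∃ (hp : (z, g z) ∈ X) (u : 𝕜), Pr ⟨(z, g z), hp⟩ u then
    h.choose_spec.choose else 0
  rw [dif_pos hh]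
  exact huniq ⟨(z, g z), hzX⟩ _ _ hgood hh.choose_spec.choose_spec

/-- A family of functions that are analytic on a neighbourhood of each point of the preconnected
set `U` and are different on `U`. -/
structure AFam (U : Set 𝕜) (F : Set (𝕜 → 𝕜)) : Prop where
  conn : IsPreconnected U
  an : ∀ f ∈ F, AnalyticOnNhd 𝕜 f U
  inj : ∀ f ∈ F, ∀ g ∈ F, EqOn f g U → f = g

/-- The set of the values at `z`. -/
def vals (F : Set (𝕜 → 𝕜)) (z : 𝕜) : Set 𝕜 := (fun f : 𝕜 → 𝕜 => f z) '' F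

variable {U : Set 𝕜} {F : Set (𝕜 → 𝕜)}

theorem eq_of_derivs [CharZero 𝕜] (h : AFam U F) {f g : 𝕜 → 𝕜} (hf : f ∈ F) (hg : g ∈ F)
    {z : 𝕜} (hz : z ∈ U) (hk : ∀ k, iteratedDeriv k f z = iteratedDeriv k g z) : f = g := by
  apply h.inj f hf g hg
  apply (h.an f hf).eqOn_of_preconnected_of_eventuallyEq (h.an g hg) h.conn hz
  have h1 := (h.an f hf z hz).hasFPowerSeriesAt
  have h2 := (h.an g hg z hz).hasFPowerSeriesAt
  simp only [hk] at h1
  filter_upwards [h1.eventually_hasSum_sub, h2.eventually_hasSum_sub] with w hw1 hw2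
    using hw1.unique hw2

/-- coincidence sets are countable -/
theorem coincidence (h : AFam U F) {f g : 𝕜 → 𝕜} (hf : f ∈ F) (hg : g ∈ F) (hne : f ≠ g) :
    {z | z ∈ U ∧ f z = g z}.Countable := by
  refine (iso_countable {z | z ∈ U ∧ f z = g z}).mono ?_
  rintro z ⟨hz, hfg⟩
  refine ⟨⟨hz, hfg⟩, ?_⟩
  rcases (h.an f hf z hz).eventually_eq_or_eventually_ne (h.an g hg z hz) with h1 | h1
  · exact absurd (h.inj f hf g hg
      ((h.an f hf).eqOn_of_preconnected_of_eventuallyEq (h.an g hg) h.conn hz h1)) hne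
  · filter_upwards [h1] with w hw hw'
    exact hw hw'.2

/-- few values at `aleph_1` points imply few functions -/
theorem few [CharZero 𝕜] (hoca : OCA) (h : AFam U F) (Z : Set 𝕜) (hZU : Z ⊆ U) (hZ : #Z = ℵ₁)
    (hval : ∀ z ∈ Z, #(vals F z) ≤ ℵ₁) : #F ≤ ℵ₁ := by
  have hDD := fun (X : Set (𝕜 × 𝕜)) (hX : #X ≤ ℵ₁) => deriv_of_value hoca X hX
  choose D hD using hDD
  set X0 : Set (𝕜 × 𝕜) := {p | p.1 ∈ Z ∧ p.2 ∈ vals F p.1} with hX0
  have hX0c : #X0 ≤ ℵ₁ := by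
    have e : X0 = ⋃ z ∈ Z, (Prod.mk z) '' (vals F z) := by
      ext p
      simp only [hX0, Set.mem_iUnion, exists_prop]
      constructor
      · rintro ⟨h1, h2⟩
        exact ⟨p.1, h1, p.2, h2, rfl⟩
      · rintro ⟨z, hz, w, hw, rfl⟩
        exact ⟨hz, hw⟩
    rw [e]
    refine (Cardinal.mk_biUnion_le _ _).trans ?_
    rw [hZ]
    have hω : ℵ₀ ≤ ℵ₁ := aleph0_le_aleph 1
    calc ℵ₁ * ⨆ z : Z, #((Prod.mk z.1) '' (vals F z.1)) ≤ ℵ₁ * ℵ₁ := by
          refine mul_le_mul' le_rfl (ciSup_le' fun z => ?_)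
          exact Cardinal.mk_image_le.trans (hval z.1 z.2)
      _ = ℵ₁ := mul_eq_self hω
  -- the sets and the functions
  let T : ℕ → {X : Set (𝕜 × 𝕜) // #X ≤ ℵ₁} := fun k => Nat.rec ⟨X0, hX0c⟩
    (fun _ X => ⟨(fun p : 𝕜 × 𝕜 => (p.1, D X.1 X.2 p)) '' X.1, Cardinal.mk_image_le.trans X.2⟩) k
  let Dk : ℕ → 𝕜 × 𝕜 → 𝕜 := fun k => D (T k).1 (T k).2
  let W : ℕ → 𝕜 × 𝕜 → 𝕜 := fun k p => Nat.rec p.2 (fun j w => Dk j (p.1, w)) k
  have hT1 : ∀ k, (T (k + 1)).1 = (fun p : 𝕜 × 𝕜 => (p.1, Dk k p)) '' (T k).1 := fun k => rfl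
  have hW1 : ∀ k p, W (k + 1) p = Dk k (p.1, W k p) := fun k p => rfl
  have hWT : ∀ k, ∀ p ∈ X0, (p.1, W k p) ∈ (T k).1 := by
    intro k p hp
    induction k with
    | zero => exact hp
    | succ k ih =>
      rw [hT1, hW1]
      exact ⟨(p.1, W k p), ih, rfl⟩
  have hdiff : ∀ f ∈ F, ∀ k, ∀ z ∈ U, DifferentiableAt 𝕜 (iteratedDeriv k f) z := by
    intro f hf k z hz
    rw [iteratedDeriv_eq_iterate]
    exact ((h.an f hf).iterated_deriv k z hz).differentiableAt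
  have hex : ∀ f ∈ F, ∃ z ∈ Z, ∀ k, iteratedDeriv k f z = W k (z, f z) := by
    intro f hf
    set Bad : Set 𝕜 := ⋃ k : ℕ, {z | DifferentiableAt 𝕜 (iteratedDeriv k f) z ∧
      (z, iteratedDeriv k f z) ∈ (T k).1 ∧
      deriv (iteratedDeriv k f) z ≠ Dk k (z, iteratedDeriv k f z)} with hBad
    have hBc : Bad.Countable := Set.countable_iUnion fun k =>
      hD (T k).1 (T k).2 _
    have hnot : ¬ Z ⊆ Bad := by
      intro hsub
      have h1 : #Z ≤ ℵ₀ := (hBc.mono hsub).le_aleph0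
      rw [hZ] at h1
      exact absurd h1 (not_le.2 aleph0_lt_aleph_one)
    obtain ⟨z, hz, hzB⟩ := Set.not_subset.1 hnot
    refine ⟨z, hz, fun k => ?_⟩
    have hp : ((z, f z) : 𝕜 × 𝕜) ∈ X0 := ⟨hz, f, hf, rfl⟩
    induction k with
    | zero => rw [iteratedDeriv_zero]; rfl
    | succ k ih =>
      rw [iteratedDeriv_succ, hW1]
      have h1 : (z, iteratedDeriv k f z) ∈ (T k).1 := by
        rw [ih]; exact hWT k _ hp
      by_contra hne
      apply hzB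
      refine Set.mem_iUnion.2 ⟨k, hdiff f hf k z (hZU hz), h1, ?_⟩
      rw [← ih] at hne
      exact hne
  choose! zf hzf hzW using hex
  have hinj : Function.Injective (fun f : F => (⟨(zf f.1, f.1 (zf f.1)),
      ⟨hzf f.1 f.2, f.1, f.2, rfl⟩⟩ : X0)) := by
    intro f g hfg
    have h1 : (zf f.1, f.1 (zf f.1)) = (zf g.1, g.1 (zf g.1)) := congrArg Subtype.val hfg
    have hz : zf f.1 = zf g.1 := congrArg Prod.fst h1
    have hk : ∀ k, iteratedDeriv k f.1 (zf f.1) = iteratedDeriv k g.1 (zf f.1) := by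
      intro k
      rw [hzW f.1 f.2 k, h1, ← hzW g.1 g.2 k, hz]
    exact Subtype.ext (eq_of_derivs h f.2 g.2 (hZU (hzf f.1 f.2)) hk)
  exact (Cardinal.mk_le_of_injective hinj).trans hX0c

/-- small families: the exceptional points are at most `aleph_1` -/
theorem small (h : AFam U F) (hF1 : #F ≤ ℵ₁) : #{z : 𝕜 | z ∈ U ∧ #(vals F z) < #F} ≤ ℵ₁ := by
  have hbad : #(⋃ p : {p : F × F // p.1.1 ≠ p.2.1}, {z : 𝕜 | z ∈ U ∧ p.1.1.1 z = p.1.2.1 z}) ≤ ℵ₁ := by
    refine (mk_iUnion_le _).trans ?_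
    have h1 : #{p : F × F // p.1.1 ≠ p.2.1} ≤ ℵ₁ := by
      refine (mk_subtype_le _).trans ?_
      rw [mk_prod, lift_id]
      exact (mul_le_mul' hF1 hF1).trans (mul_eq_self (aleph0_le_aleph 1)).le
    refine (mul_le_mul' h1 (ciSup_le' fun p => ?_)).trans (mul_eq_self (aleph0_le_aleph 1)).le
    exact (le_aleph0_iff_set_countable.2 (coincidence h p.1.1.2 p.1.2.2 p.2)).trans
      aleph0_lt_aleph_one.le
  refine (Cardinal.mk_le_mk_of_subset ?_).trans hbad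
  rintro z ⟨hz, hlt⟩
  by_contra hcon
  apply hlt.ne
  unfold vals
  apply mk_image_eq_of_injOn
  intro f hf g hg hfg
  by_contra hne
  exact hcon (mem_iUnion.2 ⟨⟨(⟨f, hf⟩, ⟨g, hg⟩), hne⟩, hz, hfg⟩)

/-- large families: countably many exceptional points -/
theorem large [CharZero 𝕜] (hoca : OCA) (hc : #𝕜 ≤ ℵ_ 2) (hc2 : #(ℕ → 𝕜) ≤ ℵ_ 2) (h : AFam U F)
    (hF1 : ℵ₁ < #F) : {z : 𝕜 | z ∈ U ∧ #(vals F z) < #F}.Countable := by
  by_contra hunc
  have hsucc : (ℵ_ 2 : Cardinal) = Order.succ ℵ₁ := by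
    rw [succ_aleph]
    norm_num
  have hle : (ℵ₁ : Cardinal) ≤ #{z : 𝕜 | z ∈ U ∧ #(vals F z) < #F} := by
    rw [← not_lt]
    intro hlt
    apply hunc
    rw [← le_aleph0_iff_set_countable]
    have h1 : (ℵ₁ : Cardinal) = Order.succ ℵ₀ := by
      rw [succ_aleph0]
    rw [h1] at hlt
    exact Order.lt_succ_iff.1 hlt
  obtain ⟨Z0, hZ0⟩ := le_mk_iff_exists_set.1 hle
  set Z : Set 𝕜 := Subtype.val '' Z0 with hZd
  have hZ : #Z = ℵ₁ := by
    rw [hZd, mk_image_eq Subtype.val_injective, hZ0]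
  have hZU : Z ⊆ U := by
    rintro _ ⟨z, -, rfl⟩
    exact z.2.1
  obtain ⟨z0, hz0⟩ : Z.Nonempty := by
    rw [Set.nonempty_iff_ne_empty]
    rintro hemp
    rw [hemp] at hZ
    simp at hZ
    exact (aleph0_pos.trans aleph0_lt_aleph_one).ne hZ
  have hF2 : #F ≤ ℵ_ 2 := by
    refine le_trans ?_ hc2
    refine mk_le_of_injective (f := fun f : F => fun n => iteratedDeriv n f.1 z0) ?_
    intro f g hfg
    exact Subtype.ext (eq_of_derivs h f.2 g.2 (hZU hz0) (fun n => congrFun hfg n))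
  refine absurd (few hoca h Z hZU hZ fun z hz => ?_) (not_le.2 hF1)
  obtain ⟨⟨z', hz'U, hlt⟩, -, rfl⟩ := hz
  have h5 := hlt.trans_le hF2
  rw [hsucc] at h5
  exact Order.lt_succ_iff.1 h5

end Pool.Agent.Y97.WZ
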